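import Pool.Agent.Q243.CECover
import Pool.Agent.Q243.CEMixture

set_option autoImplicit false

/-!
# The covering entropy of a set system equals the bound by countable mixtures

For every probability space, every system `𝓘` of measurable sets and every `0 < λ < 1` the lower
covering entropy at error `λ` is at least the infimum of `φ` over the countable mixtures of
members of `𝓘`, hence at least the infimum over the compatible mixtures. So no system has upper
covering entropy smaller than the compatible-measure bound.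
-/

namespace Pool.Agent.Results.MP_87c4bd_co.CoveringEntropy

open MeasureTheory ENNReal Filter Topology

variable {Ω : Type*} [MeasurableSpace Ω]

/-- `N_ℓ(𝓘, π, λ)`: the least number of `ℓ`-dimensional `𝓘`-boxes whose union has measure at
least `1 - λ` (`⊤` if no finite number suffices) -/
noncomputable def coverNumber (π : Measure Ω) (𝓘 : Set (Set Ω)) (lam : ℝ) (ℓ : ℕ) : ℝ≥0∞ :=
  ⨅ (N : ℕ) (_ : ∃ B : Fin N → Fin ℓ → Set Ω, (∀ i j, B i j ∈ 𝓘) ∧
    ENNReal.ofReal (1 - lam) ≤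
      Measure.pi (fun _ : Fin ℓ => π) (⋃ i, Set.univ.pi (B i))), (N : ℝ≥0∞)

/-- `(1/ℓ) log N_ℓ(𝓘, π, λ)` -/
noncomputable def rate (π : Measure Ω) (𝓘 : Set (Set Ω)) (lam : ℝ) (ℓ : ℕ) : EReal :=
  ENNReal.log (coverNumber π 𝓘 lam ℓ) / ((ℓ : ℝ) : EReal)

/-- the upper entropy at error `λ` -/
noncomputable def upperEntropy (π : Measure Ω) (𝓘 : Set (Set Ω)) (lam : ℝ) : EReal :=
  limsup (rate π 𝓘 lam) atTop

/-- the lower entropy at error `λ` -/
noncomputable def lowerEntropy (π : Measure Ω) (𝓘 : Set (Set Ω)) (lam : ℝ) : EReal :=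
  liminf (rate π 𝓘 lam) atTop

/-- `φ_π(a)`, the integral of `-log a` (for `a` with values in `[0,1]`) -/
noncomputable def phi (π : Measure Ω) (a : Ω → ℝ≥0∞) : ℝ≥0∞ := ∫⁻ x, CovEnt.negLog (a x) ∂π

/-- countable convex combinations of indicators of members of `𝓘` -/
def IsCountableMixture (𝓘 : Set (Set Ω)) (a : Ω → ℝ≥0∞) : Prop :=
  ∃ (J : ℕ → Set Ω) (q : ℕ → ℝ≥0∞), (∀ k, J k ∈ 𝓘) ∧ ∑' k, q k = 1 ∧
    ∀ x, a x = ∑' k, q k * (J k).indicator 1 x

/-- the members of `VP_full(𝓘, π)` -/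
def IsCompatibleMixture (π : Measure Ω) (𝓘 : Set (Set Ω)) (a : Ω → ℝ≥0∞) : Prop :=
  ∃ (_ : MeasurableSpace 𝓘) (β : Measure 𝓘), IsProbabilityMeasure β ∧
    NullMeasurableSet {p : 𝓘 × Ω | p.2 ∈ (p.1 : Set Ω)} (β.prod π) ∧
    ∀ x, a x = β {J | x ∈ (J : Set Ω)}

/-- the infimum of `φ_π` over countable mixtures -/
noncomputable def cntEntropy (π : Measure Ω) (𝓘 : Set (Set Ω)) : EReal :=
  ⨅ (a : Ω → ℝ≥0∞) (_ : IsCountableMixture 𝓘 a), ((phi π a : ℝ≥0∞) : EReal)

/-- the infimum of `φ_π` over `VP_full(𝓘, π)` -/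
noncomputable def fullEntropy (π : Measure Ω) (𝓘 : Set (Set Ω)) : EReal :=
  ⨅ (a : Ω → ℝ≥0∞) (_ : IsCompatibleMixture π 𝓘 a), ((phi π a : ℝ≥0∞) : EReal)

/-! ### The family of countable mixtures -/

omit [MeasurableSpace Ω] in
theorem IsCountableMixture.le_one {𝓘 : Set (Set Ω)} {a : Ω → ℝ≥0∞} (ha : IsCountableMixture 𝓘 a)
    (x : Ω) : a x ≤ 1 := by
  obtain ⟨J, q, -, hq, hax⟩ := ha
  rw [hax, ← hq]
  refine ENNReal.tsum_le_tsum (fun k => ?_)
  by_cases hx : x ∈ J k
  · rw [Set.indicator_of_mem hx]; simp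
  · rw [Set.indicator_of_notMem hx]; simp

theorem IsCountableMixture.measurable {𝓘 : Set (Set Ω)} (h𝓘 : ∀ J ∈ 𝓘, MeasurableSet J)
    {a : Ω → ℝ≥0∞} (ha : IsCountableMixture 𝓘 a) : Measurable a := by
  obtain ⟨J, q, hJ, hq, hax⟩ := ha
  have e : a = fun x => ∑' k, q k * (J k).indicator 1 x := funext hax
  rw [e]
  exact Measurable.tsum (fun k => (measurable_one.indicator (h𝓘 _ (hJ k))).const_mul _)

/-- real-valued version of the family of mixtures -/
def fam (𝓘 : Set (Set Ω)) : Set (Ω → ℝ) :=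
  {f | ∃ a, IsCountableMixture 𝓘 a ∧ ∀ x, f x = (a x).toReal}

omit [MeasurableSpace Ω] in
theorem single_mem {𝓘 : Set (Set Ω)} {J : Set Ω} (hJ : J ∈ 𝓘) :
    IsCountableMixture 𝓘 (J.indicator 1) := by
  refine ⟨fun _ => J, fun k => if k = 0 then 1 else 0, fun _ => hJ, ?_, fun x => ?_⟩
  · rw [tsum_ite_eq]
  · rw [ENNReal.tsum_mul_right, tsum_ite_eq, one_mul]

theorem good_fam {𝓘 : Set (Set Ω)} (h𝓘 : ∀ J ∈ 𝓘, MeasurableSet J) (hne : 𝓘.Nonempty) :
    CovEnt.Good (fam 𝓘) where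
  meas := by
    rintro f ⟨a, ha, hf⟩
    rw [show f = fun x => (a x).toReal from funext hf]
    exact (ha.measurable h𝓘).ennreal_toReal
  nonneg := by
    rintro f ⟨a, ha, hf⟩ x
    rw [hf]; exact ENNReal.toReal_nonneg
  le_one := by
    rintro f ⟨a, ha, hf⟩ x
    rw [hf]
    exact ENNReal.toReal_le_of_le_ofReal zero_le_one (by simpa using ha.le_one x)
  ne := by
    obtain ⟨J, hJ⟩ := hne
    exact ⟨_, _, single_mem hJ, fun x => rfl⟩
  conv := by
    intro f w hf hw hsum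
    choose a ha hfa using hf
    have ha' := ha
    choose J q hJ hq hax using ha'
    have hw1 : ∑' n, ENNReal.ofReal (w n) = 1 := by
      rw [← ENNReal.ofReal_tsum_of_nonneg hw hsum.summable, hsum.tsum_eq, ENNReal.ofReal_one]
    refine ⟨fun x => ∑' n, ENNReal.ofReal (w n) * a n x, ⟨fun m => J (Nat.unpair m).1 (Nat.unpair m).2,
      fun m => ENNReal.ofReal (w (Nat.unpair m).1) * q (Nat.unpair m).1 (Nat.unpair m).2,
      fun m => hJ _ _, ?_, fun x => ?_⟩, fun x => ?_⟩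
    · have e := (Nat.pairEquiv.symm).tsum_eq
        (fun p : ℕ × ℕ => ENNReal.ofReal (w p.1) * q p.1 p.2)
      simp only [Nat.pairEquiv_symm_apply] at e
      rw [e, ENNReal.tsum_prod', ← hw1]
      refine tsum_congr (fun n => ?_)
      show (∑' b, ENNReal.ofReal (w n) * q n b) = ENNReal.ofReal (w n)
      rw [ENNReal.tsum_mul_left, hq n, mul_one]
    · have e := (Nat.pairEquiv.symm).tsum_eq
        (fun p : ℕ × ℕ => ENNReal.ofReal (w p.1) * q p.1 p.2 *
          (J p.1 p.2).indicator (1 : Ω → ℝ≥0∞) x)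
      simp only [Nat.pairEquiv_symm_apply] at e
      rw [e, ENNReal.tsum_prod']
      refine tsum_congr (fun n => ?_)
      simp only [mul_assoc]
      rw [ENNReal.tsum_mul_left, hax n x]
    · rw [ENNReal.tsum_toReal_eq]
      · refine tsum_congr (fun n => ?_)
        rw [ENNReal.toReal_mul, ENNReal.toReal_ofReal (hw n), hfa n x]
      · intro n
        exact ENNReal.mul_ne_top ENNReal.ofReal_ne_top
          (ne_top_of_le_ne_top ENNReal.one_ne_top ((ha n).le_one x))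

/-! ### The entropy is at least the smoothed suprema -/

theorem le_lower_of_eventually {π : Measure Ω} {𝓘 : Set (Set Ω)} {lam κ : ℝ}
    (h : ∀ᶠ ℓ : ℕ in atTop, ENNReal.ofReal (Real.exp (κ * ℓ)) ≤ coverNumber π 𝓘 lam ℓ) :
    (κ : EReal) ≤ lowerEntropy π 𝓘 lam := by
  refine le_liminf_of_le (by isBoundedDefault) ?_
  filter_upwards [h, eventually_gt_atTop 0] with ℓ hℓ hpos
  have hℓpos : (0 : ℝ) < ℓ := Nat.cast_pos.mpr hpos
  unfold rate
  rw [EReal.le_div_iff_mul_le (by exact_mod_cast hℓpos) (EReal.coe_ne_top _), ← EReal.coe_mul]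
  have h1 : ENNReal.log (ENNReal.ofReal (Real.exp (κ * ℓ))) = ((κ * ℓ : ℝ) : EReal) := by
    rw [ENNReal.log_ofReal_of_pos (Real.exp_pos _), Real.log_exp]
  rw [← h1]
  exact ENNReal.log_monotone hℓ

theorem smooth_le_lower (π : Measure Ω) [IsProbabilityMeasure π]
    (𝓘 : Set (Set Ω)) (h𝓘 : ∀ J ∈ 𝓘, MeasurableSet J) (hne : 𝓘.Nonempty)
    {lam : ℝ} (h1 : lam < 1) {ε : ℝ} (hε0 : 0 < ε) (hε1 : ε < 1) {κ : ℝ}
    (hκ : κ < -CovEnt.SS π (fam 𝓘) ε) : (κ : EReal) ≤ lowerEntropy π 𝓘 lam := by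
  have hg := good_fam h𝓘 hne
  set s := CovEnt.SS π (fam 𝓘) ε with hs
  set c : ℝ := -κ - s with hc
  have hc0 : 0 < c := by rw [hc]; linarith
  set κ₁ : ℝ := κ + c / 2 with hκ₁
  have hε1' : 0 < 1 - ε := by linarith
  have hden : 0 < 1 + 2 / ε ^ 2 := by positivity
  set δ : ℝ := min (ε / 2) (c / 4 * (1 - ε) / (1 + 2 / ε ^ 2)) with hδ
  have hδ0 : 0 < δ := lt_min (by positivity) (by positivity)
  have hδε : δ ≤ ε / 2 := min_le_left _ _
  set η : ℝ := δ * (1 + 2 / ε ^ 2) / (1 - ε) with hη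
  have hη0 : 0 < η := by positivity
  have hηc : η ≤ c / 4 := by
    rw [hη, div_le_iff₀ hε1', ← le_div_iff₀ hden]
    exact min_le_right _ _
  obtain ⟨a, ha, hopt⟩ := CovEnt.exists_near hg π (ε := ε) (γ := δ ^ 2) (by positivity)
  have hbpos : ∀ x, 0 < CovEnt.sm ε a x := fun x => hε0.trans_le (CovEnt.sm_ge hg hε1.le ha x)
  have hbm : Measurable (CovEnt.sm ε a) := CovEnt.sm_meas hg ha
  set g : Ω → ℝ := fun x => κ₁ + Real.log (1 + η) + Real.log (CovEnt.sm ε a x) with hgdef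
  have hgm : Measurable g := (Real.measurable_log.comp hbm).const_add _
  have hlogη : Real.log (1 + η) ≤ c / 4 := by
    have := Real.log_le_sub_one_of_pos (show (0 : ℝ) < 1 + η by linarith)
    linarith
  have hli := CovEnt.log_int hg π hε0 hε1.le ha
  have hgb : ∀ x, |g x| ≤ |κ₁ + Real.log (1 + η)| + -Real.log ε := fun x =>
    (abs_add_le _ _).trans (add_le_add le_rfl (CovEnt.log_bd hg hε0 hε1.le ha x))
  have hgi : ∫ x, g x ∂π < 0 := by
    have e : ∫ x, g x ∂π = (κ₁ + Real.log (1 + η)) + CovEnt.FF π ε a := by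
      have : ∫ x, g x ∂π = (∫ _, (κ₁ + Real.log (1 + η)) ∂π) +
          ∫ x, Real.log (CovEnt.sm ε a x) ∂π := integral_add (integrable_const _) hli
      rw [this]
      simp [CovEnt.FF]
    have h2 := CovEnt.FF_le_SS hg π hε0 hε1.le ha
    rw [e, hκ₁]
    rw [← hs] at h2
    linarith
  obtain ⟨t, ht, q, hq0, hq1, hq⟩ := CovEnt.exists_exp_moment π g hgm _ hgb hgi
  have hJ : ∀ J ∈ 𝓘, ∫⁻ x in J, ENNReal.ofReal (Real.exp (-(g x))) ∂π
      ≤ ENNReal.ofReal (Real.exp (-κ₁)) := by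
    intro J hJ
    have hf : (fun x => ((J.indicator (1 : Ω → ℝ≥0∞)) x).toReal) ∈ fam 𝓘 :=
      ⟨_, single_mem hJ, fun x => rfl⟩
    have h3 := CovEnt.near_opt hg π hε0 hε1 hδ0 hδε ha hopt hf
    have hfb : Integrable (fun x => ((J.indicator (1 : Ω → ℝ≥0∞)) x).toReal /
        CovEnt.sm ε a x) π := by
      refine Integrable.of_bound ((hg.meas _ hf).div hbm).aestronglyMeasurable (1 / ε)
        (ae_of_all _ (fun x => ?_))
      rw [Real.norm_eq_abs, abs_div, abs_of_pos (hbpos x), abs_of_nonneg (hg.nonneg _ hf x)]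
      exact div_le_div₀ zero_le_one (hg.le_one _ hf x) hε0 (CovEnt.sm_ge hg hε1.le ha x)
    have h4 : ∫⁻ x in J, ENNReal.ofReal (Real.exp (-(g x))) ∂π
        = ENNReal.ofReal (Real.exp (-κ₁) / (1 + η) *
          ∫ x, ((J.indicator (1 : Ω → ℝ≥0∞)) x).toReal / CovEnt.sm ε a x ∂π) := by
      rw [← integral_const_mul, ofReal_integral_eq_lintegral_ofReal (hfb.const_mul _),
        ← lintegral_indicator (h𝓘 J hJ)]
      · refine lintegral_congr (fun x => ?_)
        by_cases hx : x ∈ J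
        · rw [Set.indicator_of_mem hx, Set.indicator_of_mem hx]
          congr 1
          simp only [hgdef, Pi.one_apply, ENNReal.toReal_one]
          rw [neg_add, neg_add, Real.exp_add, Real.exp_add, Real.exp_neg (Real.log (1 + η)),
            Real.exp_log (by linarith : (0 : ℝ) < 1 + η), Real.exp_neg (Real.log _),
            Real.exp_log (hbpos x)]
          field_simp
        · rw [Set.indicator_of_notMem hx, Set.indicator_of_notMem hx]
          simp
      · refine ae_of_all _ (fun x => ?_)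
        exact mul_nonneg (div_nonneg (Real.exp_pos _).le (by linarith))
          (div_nonneg (hg.nonneg _ hf x) (hbpos x).le)
    rw [h4]
    refine ENNReal.ofReal_le_ofReal ?_
    calc Real.exp (-κ₁) / (1 + η) *
          ∫ x, ((J.indicator (1 : Ω → ℝ≥0∞)) x).toReal / CovEnt.sm ε a x ∂π
        ≤ Real.exp (-κ₁) / (1 + η) * (1 + η) :=
          mul_le_mul_of_nonneg_left h3 (div_nonneg (Real.exp_pos _).le (by linarith))
      _ = Real.exp (-κ₁) := div_mul_cancel₀ _ (by linarith)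
  have hlam : 0 < 1 - lam := by linarith
  refine le_lower_of_eventually ?_
  have ev1 : ∀ᶠ ℓ : ℕ in atTop, q ^ ℓ < (1 - lam) / 2 :=
    (tendsto_pow_atTop_nhds_zero_of_lt_one hq0 hq1).eventually_lt_const (by positivity)
  have ev2 : ∀ᶠ ℓ : ℕ in atTop, 2 / (1 - lam) ≤ Real.exp (c / 2 * ℓ) := by
    have : Tendsto (fun ℓ : ℕ => Real.exp (c / 2 * ℓ)) atTop atTop :=
      Real.tendsto_exp_atTop.comp
        (Tendsto.const_mul_atTop (by positivity) tendsto_natCast_atTop_atTop)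
    exact this.eventually_ge_atTop _
  filter_upwards [ev1, ev2] with ℓ hℓ1 hℓ2
  refine le_iInf₂ (fun N hN => ?_)
  obtain ⟨B, hB, hcov⟩ := hN
  have h5 := CovEnt.cover_ineq π 𝓘 g hgm t ht q κ₁ lam hq hJ ℓ N B hB hcov
  rw [← ENNReal.ofReal_natCast N, ← ENNReal.ofReal_pow hq0,
    ← ENNReal.ofReal_pow (Real.exp_pos _).le, ← ENNReal.ofReal_mul (Nat.cast_nonneg _),
    ← ENNReal.ofReal_add (by positivity) (by positivity),
    ENNReal.ofReal_le_ofReal_iff (by positivity)] at h5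
  rw [← ENNReal.ofReal_natCast N]
  refine ENNReal.ofReal_le_ofReal ?_
  have h6 : (1 - lam) / 2 ≤ N * Real.exp (-κ₁) ^ ℓ := by linarith
  have h7 : Real.exp (-κ₁) ^ ℓ = Real.exp (-(κ₁ * ℓ)) := by
    rw [← Real.exp_nat_mul]; congr 1; ring
  have h8 : Real.exp (κ * ℓ) * Real.exp (c / 2 * ℓ) = Real.exp (κ₁ * ℓ) := by
    rw [← Real.exp_add]; congr 1; rw [hκ₁]; ring
  rw [h7, Real.exp_neg] at h6
  have h9 : (1 - lam) / 2 * Real.exp (κ₁ * ℓ) ≤ N := by
    have := mul_le_mul_of_nonneg_right h6 (Real.exp_pos (κ₁ * ℓ)).le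
    rwa [mul_assoc, inv_mul_cancel₀ (Real.exp_pos _).ne', mul_one] at this
  refine le_trans ?_ h9
  rw [← h8]
  have h10 : 1 ≤ (1 - lam) / 2 * Real.exp (c / 2 * ℓ) := by
    have := mul_le_mul_of_nonneg_left hℓ2 (by positivity : 0 ≤ (1 - lam) / 2)
    have e : (1 - lam) / 2 * (2 / (1 - lam)) = 1 := by field_simp
    rwa [e] at this
  calc Real.exp (κ * ℓ) = Real.exp (κ * ℓ) * 1 := (mul_one _).symm
    _ ≤ Real.exp (κ * ℓ) * ((1 - lam) / 2 * Real.exp (c / 2 * ℓ)) :=
        mul_le_mul_of_nonneg_left h10 (Real.exp_pos _).le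
    _ = _ := by ring

theorem cnt_le_lower (π : Measure Ω) [IsProbabilityMeasure π]
    (𝓘 : Set (Set Ω)) (h𝓘 : ∀ J ∈ 𝓘, MeasurableSet J) {lam : ℝ} (h1 : lam < 1) :
    cntEntropy π 𝓘 ≤ lowerEntropy π 𝓘 lam := by
  by_cases hne : 𝓘.Nonempty
  · by_contra hcon
    rw [not_le] at hcon
    have hg := good_fam h𝓘 hne
    obtain ⟨L, hL1, hL2⟩ := EReal.lt_iff_exists_real_btwn.mp hcon
    obtain ⟨L', hL3, hL4⟩ := EReal.lt_iff_exists_real_btwn.mp hL2
    have hLL : L < L' := by exact_mod_cast hL3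
    have hS : ∀ ε, 0 < ε → ε < 1 → -L ≤ CovEnt.SS π (fam 𝓘) ε := by
      intro ε h0 h1'
      by_contra hlt
      rw [not_le] at hlt
      have := smooth_le_lower π 𝓘 h𝓘 hne h1 h0 h1' (κ := L) (by linarith)
      exact absurd this (not_le.mpr hL1)
    have hL0 : 0 ≤ L := by
      have h3 := hS (1 / 2) (by norm_num) (by norm_num)
      have h4 := CovEnt.SS_le_zero hg π (ε := 1 / 2) (by norm_num) (by norm_num)
      linarith
    obtain ⟨f, ⟨a, ha, hfa⟩, hf⟩ := CovEnt.exists_good hg π hS (γ := L' - L) (by linarith)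
    have h5 : phi π a ≤ ENNReal.ofReal L' := by
      have e : phi π a = ∫⁻ x, CovEnt.negLog (ENNReal.ofReal (f x)) ∂π := by
        unfold phi
        refine lintegral_congr (fun x => ?_)
        rw [hfa, ENNReal.ofReal_toReal (ne_top_of_le_ne_top ENNReal.one_ne_top (ha.le_one x))]
      rw [e]
      refine hf.trans (le_of_eq ?_)
      congr 1; ring
    have h6 : cntEntropy π 𝓘 ≤ (L' : EReal) := by
      refine (iInf₂_le a ha).trans ?_
      have h7 : ((phi π a : ℝ≥0∞) : EReal) ≤ ((ENNReal.ofReal L' : ℝ≥0∞) : EReal) := by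
        exact_mod_cast h5
      refine h7.trans (le_of_eq ?_)
      rw [EReal.coe_ennreal_ofReal, max_eq_left (by linarith)]
    exact absurd h6 (not_le.mpr hL4)
  · rw [Set.not_nonempty_iff_eq_empty] at hne
    have : lowerEntropy π 𝓘 lam = ⊤ := by
      rw [eq_top_iff]
      refine le_liminf_of_le (by isBoundedDefault) ?_
      filter_upwards [eventually_gt_atTop 0] with ℓ hpos
      have hℓpos : (0 : ℝ) < ℓ := Nat.cast_pos.mpr hpos
      have hc : coverNumber π 𝓘 lam ℓ = ⊤ := by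
        rw [eq_top_iff]
        refine le_iInf₂ (fun N hN => ?_)
        obtain ⟨B, hB, hcov⟩ := hN
        rcases Nat.eq_zero_or_pos N with rfl | hN0
        · exfalso
          simp only [Set.iUnion_of_empty, measure_empty, nonpos_iff_eq_zero,
            ENNReal.ofReal_eq_zero] at hcov
          linarith
        · exfalso
          have := hB ⟨0, hN0⟩ ⟨0, hpos⟩
          rw [hne] at this
          exact this
      unfold rate
      rw [hc, ENNReal.log_top, EReal.top_div_of_pos_ne_top (by exact_mod_cast hℓpos)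
        (EReal.coe_ne_top _)]
    rw [this]
    exact le_top

/-! ### Countable mixtures are compatible -/

theorem compatible_of_countable (π : Measure Ω) [IsProbabilityMeasure π]
    (𝓘 : Set (Set Ω)) (h𝓘 : ∀ J ∈ 𝓘, MeasurableSet J) {a : Ω → ℝ≥0∞}
    (ha : IsCountableMixture 𝓘 a) : IsCompatibleMixture π 𝓘 a := by
  obtain ⟨J, q, hJ, hq, hax⟩ := ha
  let _ : MeasurableSpace 𝓘 := ⊤
  set K : ℕ → 𝓘 := fun k => ⟨J k, hJ k⟩ with hK
  set β : Measure 𝓘 := Measure.sum (fun k => q k • Measure.dirac (K k)) with hβ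
  have hβa : ∀ s : Set 𝓘, β s = ∑' k, q k * s.indicator 1 (K k) := by
    intro s
    rw [hβ, Measure.sum_apply _ (show MeasurableSet s from trivial)]
    refine tsum_congr (fun k => ?_)
    rw [Measure.smul_apply, Measure.dirac_apply' _ (show MeasurableSet s from trivial), smul_eq_mul]
  have hprob : IsProbabilityMeasure β := ⟨by rw [hβa]; simpa using hq⟩
  refine ⟨inferInstance, β, hprob, ?_, fun x => ?_⟩
  · set A : Set (𝓘 × Ω) := ⋃ k, ({K k} : Set 𝓘) ×ˢ (J k) with hA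
    have hAm : MeasurableSet A := MeasurableSet.iUnion (fun k =>
      MeasurableSet.prod (show MeasurableSet ({K k} : Set 𝓘) from trivial) (h𝓘 _ (hJ k)))
    refine hAm.nullMeasurableSet.congr ?_
    have hnull : (β.prod π) ((Set.range K)ᶜ ×ˢ (Set.univ : Set Ω)) = 0 := by
      rw [Measure.prod_prod, hβa]
      have : ∑' k, q k * ((Set.range K)ᶜ : Set 𝓘).indicator (1 : 𝓘 → ℝ≥0∞) (K k) = 0 := by
        rw [ENNReal.tsum_eq_zero]
        intro k
        rw [Set.indicator_of_notMem, mul_zero]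
        simp
      rw [this, zero_mul]
    refine Filter.eventuallyEq_set.mpr ?_
    have hae : ∀ᵐ p ∂(β.prod π), p ∉ ((Set.range K)ᶜ ×ˢ (Set.univ : Set Ω)) :=
      measure_eq_zero_iff_ae_notMem.mp hnull
    filter_upwards [hae] with p hp
    simp only [Set.mem_prod, Set.mem_compl_iff, Set.mem_univ, and_true, not_not] at hp
    obtain ⟨k, hk⟩ := hp
    constructor
    · intro hpA
      obtain ⟨k', hk'⟩ := Set.mem_iUnion.mp hpA
      have h1 : p.1 = K k' := hk'.1
      have h2 : p.2 ∈ J k' := hk'.2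
      show p.2 ∈ (p.1 : Set Ω)
      rw [h1]
      exact h2
    · intro hpI
      refine Set.mem_iUnion.mpr ⟨k, ?_, ?_⟩
      · exact hk.symm
      · have h2 : p.2 ∈ (p.1 : Set Ω) := hpI
        rw [← hk] at h2
        exact h2
  · rw [hax, hβa]
    refine tsum_congr (fun k => ?_)
    congr 1

/-- For every probability space, every system and every `0 < λ < 1`:
`H_full ≤ H_cnt ≤ lower H_λ ≤ upper H_λ`. -/
theorem result {Ω : Type*} [MeasurableSpace Ω] (π : Measure Ω) [IsProbabilityMeasure π]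
    (𝓘 : Set (Set Ω)) (h𝓘 : ∀ J ∈ 𝓘, MeasurableSet J) (lam : ℝ) (_h0 : 0 < lam) (h1 : lam < 1) :
    fullEntropy π 𝓘 ≤ cntEntropy π 𝓘 ∧ cntEntropy π 𝓘 ≤ lowerEntropy π 𝓘 lam ∧
      lowerEntropy π 𝓘 lam ≤ upperEntropy π 𝓘 lam := by
  refine ⟨?_, cnt_le_lower π 𝓘 h𝓘 h1, liminf_le_limsup⟩
  exact le_iInf₂ (fun a ha => iInf₂_le a (compatible_of_countable π 𝓘 h𝓘 ha))

end Pool.Agent.Results.MP_87c4bd_co.CoveringEntropy
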